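import Pool.Agent.Lib.MP_602b76_co_Large.Rows

/-!
# One large generator: intervals and planar sets
-/

namespace Pool.Agent.Lib.MP_602b76_co_Large

open Finset Pool.Agent.Lib.MP_602b76_co_Two

/-- The point with number `m` of the planar set of width `C`. -/
def pt (g b C m : ℕ) : ℤ := ((m % C : ℕ) : ℤ) * g + ((m / C : ℕ) : ℤ) * b

/-- The planar set of width `C` with `n` points. -/
def Plane (g b C n : ℕ) : Finset ℤ := (range n).image (pt g b C)

theorem pt_inj {g b C : ℕ} (hC : 0 < C) (hCb : C ≤ b) (hco : Nat.Coprime g b) :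
    Function.Injective (pt g b C) := by
  intro m m' h
  unfold pt at h
  have h1 := Nat.mod_lt m hC
  have h2 := Nat.mod_lt m' hC
  obtain ⟨h3, h4⟩ := coord_unique (a := g) (b := b) (by omega) hco
    (i := ((m % C : ℕ) : ℤ)) (i' := ((m' % C : ℕ) : ℤ)) (j := ((m / C : ℕ) : ℤ))
    (j' := ((m' / C : ℕ) : ℤ)) (by omega) (by omega) h
  have h5 : m % C = m' % C := by exact_mod_cast h3
  have h6 : m / C = m' / C := by exact_mod_cast h4
  rw [← Nat.div_add_mod m C, ← Nat.div_add_mod m' C, h5, h6]

theorem card_Plane {g b C n : ℕ} (hC : 0 < C) (hCb : C ≤ b) (hco : Nat.Coprime g b) :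
    (Plane g b C n).card = n := by
  unfold Plane
  rw [card_image_of_injective _ (pt_inj hC hCb hco), card_range]

theorem ch_Plane_b {g b C n : ℕ} (hC : 0 < C) : ch (b : ℤ) (Plane g b C n) ≤ C := by
  unfold ch
  have hsub : (Plane g b C n).filter (fun x => x + (b : ℤ) ∉ Plane g b C n) ⊆
      (Ico (n - C) n).image (pt g b C) := by
    intro x hx
    rw [mem_filter] at hx
    obtain ⟨hx1, hx2⟩ := hx
    unfold Plane at hx1
    rw [mem_image] at hx1
    obtain ⟨m, hm, rfl⟩ := hx1
    rw [mem_range] at hm
    rw [mem_image]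
    refine ⟨m, ?_, rfl⟩
    rw [mem_Ico]
    refine ⟨?_, hm⟩
    by_contra hlt
    apply hx2
    unfold Plane
    rw [mem_image]
    refine ⟨m + C, by rw [mem_range]; omega, ?_⟩
    unfold pt
    rw [Nat.add_mod_right, Nat.add_div_right _ hC]
    push_cast
    ring
  refine le_trans (card_le_card hsub) (le_trans card_image_le ?_)
  rw [Nat.card_Ico]
  omega

theorem ch_Plane_g {g b C n w : ℕ} (hC : 0 < C) :
    ch ((w : ℤ) * g) (Plane g b C n) ≤ w * (n / C + 2) := by
  unfold ch
  have hsub : (Plane g b C n).filter (fun x => x + (w : ℤ) * g ∉ Plane g b C n) ⊆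
      ((range w ×ˢ range (n / C + 1)).image (fun p => pt g b C (C * p.2 + (C - 1 - p.1)))) ∪
        (Ico (n - w) n).image (pt g b C) := by
    intro x hx
    rw [mem_filter] at hx
    obtain ⟨hx1, hx2⟩ := hx
    unfold Plane at hx1
    rw [mem_image] at hx1
    obtain ⟨m, hm, rfl⟩ := hx1
    rw [mem_range] at hm
    have hmod := Nat.mod_lt m hC
    have hdm := Nat.div_add_mod m C
    rw [mem_union]
    by_cases h1 : n - w ≤ m
    · right
      rw [mem_image]
      exact ⟨m, by rw [mem_Ico]; exact ⟨h1, hm⟩, rfl⟩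
    · left
      have h2 : C ≤ m % C + w := by
        by_contra hlt
        push Not at hlt
        apply hx2
        unfold Plane
        rw [mem_image]
        refine ⟨m + w, by rw [mem_range]; omega, ?_⟩
        have e1 : (m + w) % C = m % C + w := by
          rw [← Nat.mod_eq_of_lt hlt]
          simp
        have e2 : (m + w) / C = m / C := by
          have h3 := Nat.div_add_mod (m + w) C
          rw [e1] at h3
          have h4 : C * ((m + w) / C) = C * (m / C) := by omega
          exact Nat.eq_of_mul_eq_mul_left hC h4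
        unfold pt
        rw [e1, e2]
        push_cast
        ring
      rw [mem_image]
      refine ⟨(C - 1 - m % C, m / C), ?_, ?_⟩
      · rw [mem_product, mem_range, mem_range]
        refine ⟨by simp only; omega, ?_⟩
        have : m / C ≤ n / C := Nat.div_le_div_right hm.le
        simp only
        omega
      · have e : C * (m / C) + (C - 1 - (C - 1 - m % C)) = m := by omega
        simp only
        rw [e]
  refine le_trans (card_le_card hsub) (le_trans (card_union_le _ _) ?_)
  have h1 : ((range w ×ˢ range (n / C + 1)).image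
      (fun p => pt g b C (C * p.2 + (C - 1 - p.1)))).card ≤ w * (n / C + 1) := by
    refine le_trans card_image_le ?_
    rw [card_product, card_range, card_range]
  have h2 : ((Ico (n - w) n).image (pt g b C)).card ≤ w := by
    refine le_trans card_image_le ?_
    rw [Nat.card_Ico]
    omega
  have e : w * (n / C + 2) = w * (n / C + 1) + w := by ring
  rw [e]
  exact Nat.add_le_add h1 h2

/-- The number of all chains. -/
def tau (g b : ℕ) (U : Finset ℕ) (S : Finset ℤ) : ℕ := fg g U S + ch (b : ℤ) S

theorem tau_Ico (g b : ℕ) (U : Finset ℕ) (n : ℕ) :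
    tau g b U (Ico (0 : ℤ) n) ≤ (∑ w ∈ U, w) * g + b := by
  unfold tau fg
  refine Nat.add_le_add ?_ (ch_Ico_le b 0 n)
  rw [Finset.sum_mul]
  apply Finset.sum_le_sum
  intro w _
  have := ch_Ico_le (w * g) 0 n
  push_cast at this
  exact this

theorem tau_Plane {g b C n : ℕ} (U : Finset ℕ) (hC : 0 < C) :
    tau g b U (Plane g b C n) ≤ C + (∑ w ∈ U, w) * (n / C + 2) := by
  unfold tau fg
  rw [add_comm C, Finset.sum_mul]
  exact Nat.add_le_add (Finset.sum_le_sum (fun w _ => ch_Plane_g hC)) (ch_Plane_b hC)

/-- Optimal sets. -/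
def LOpt (g b : ℕ) (U : Finset ℕ) (S : Finset ℤ) : Prop :=
  ∀ T : Finset ℤ, T.card = S.card → tau g b U S ≤ tau g b U T

end Pool.Agent.Lib.MP_602b76_co_Large
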