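import Pool.Agent.Lib.MP_602b76_co_Large.Window
import Pool.Agent.Lib.MP_602b76_co_Large.Upper

/-!
# One large generator: no nested sequence of optimal sets
-/

namespace Pool.Agent.Lib.MP_602b76_co_Large

open Finset Pool.Agent.Lib.MP_602b76_co_Two

theorem card_cls_insert (b : ℕ) (x : ℤ) (S : Finset ℤ) :
    (cls b (insert x S)).card ≤ (cls b S).card + 1 := by
  unfold cls
  rw [image_insert]
  exact card_insert_le _ _

/-- **No nested sequence.** -/
theorem core (g : ℕ) (U : Finset ℕ) (hU : U.Nonempty) (hpos : ∀ w ∈ U, 0 < w)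
    (hgen : (1 : ℤ) ∈ AddSubgroup.closure (steps U)) :
    ∃ B : ℕ, ∀ b : ℕ, B ≤ b → Nat.Coprime g b → ∀ S : ℕ → Finset ℤ,
      (∀ n, (S n).card = n) → (∀ n, ∃ x, S (n + 1) = insert x (S n)) →
        ∃ n : ℕ, n ≤ b ^ 2 ∧ ¬ LOpt g b U (S n) := by
  obtain ⟨D, M, hlow⟩ := lower g U hU hpos hgen
  obtain ⟨s, hs⟩ : ∃ s, s = ∑ w ∈ U, w := ⟨_, rfl⟩
  rw [← hs] at hlow
  have hs1 : 1 ≤ s := by
    obtain ⟨w, hw⟩ := hU
    rw [hs]
    exact le_trans (hpos w hw) (Finset.single_le_sum (f := fun w : ℕ => w)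
      (fun _ _ => Nat.zero_le _) hw)
  refine ⟨4 * (M + s * g + 3 * D + 4 * s + 4), ?_⟩
  intro b hB hco S hcard hstep
  obtain ⟨q, hq⟩ : ∃ q, q = b / 4 := ⟨_, rfl⟩
  have hq1 : 4 * q ≤ b := by omega
  have hq2 : b ≤ 4 * q + 3 := by omega
  have hq3 : M + s * g + 3 * D + 4 * s + 4 ≤ q := by omega
  by_contra hcon
  push Not at hcon
  have hub : ∀ n, n ≤ b ^ 2 → fg g U (S n) + ch (b : ℤ) (S n) ≤ s * g + b := by
    intro n hn
    have h1 := hcon n hn (Ico (0 : ℤ) n) (by rw [hcard]; simp)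
    have h2 := tau_Ico g b U n
    rw [← hs] at h2
    unfold tau at h1 h2
    exact le_trans h1 h2
  -- at the end there are more than `3 q` classes
  have hend : 3 * q < (cls b (S (b ^ 2))).card := by
    by_contra hle
    push Not at hle
    have h1 := hlow b (by omega) hco (3 * q) (by omega) (by omega) (S (b ^ 2)) hle
      (hub _ le_rfl)
    rw [hcard] at h1
    have h2 := hub (b ^ 2) le_rfl
    have h3 : fg g U (S (b ^ 2)) + D ≤ s * g + b + D := by omega
    have h4 : s * b ^ 2 ≤ 3 * q * (s * g + b + D) :=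
      le_trans h1 (Nat.mul_le_mul_left _ h3)
    have h5 : b ^ 2 ≤ s * b ^ 2 := Nat.le_mul_of_pos_left _ hs1
    have h6 : 4 * b ^ 2 ≤ 3 * b * (s * g + b + D) := by
      calc 4 * b ^ 2 ≤ 4 * (3 * q * (s * g + b + D)) := by omega
        _ = 3 * (4 * q) * (s * g + b + D) := by ring
        _ ≤ 3 * b * (s * g + b + D) := by
            apply Nat.mul_le_mul_right
            omega
    have h7 : b * (4 * b) ≤ b * (3 * (s * g + b + D)) := by
      calc b * (4 * b) = 4 * b ^ 2 := by ring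
        _ ≤ _ := h6
        _ = b * (3 * (s * g + b + D)) := by ring
    have h8 := Nat.le_of_mul_le_mul_left h7 (by omega)
    omega
  -- the first time of `3 q` classes
  have hex : ∃ n, n ≤ b ^ 2 ∧ 3 * q ≤ (cls b (S n)).card := ⟨b ^ 2, le_rfl, hend.le⟩
  classical
  obtain ⟨n, hn1, hn2⟩ : ∃ n, n ≤ b ^ 2 ∧ (cls b (S n)).card = 3 * q := by
    refine ⟨Nat.find hex, (Nat.find_spec hex).1, le_antisymm ?_ (Nat.find_spec hex).2⟩
    rcases Nat.eq_zero_or_pos (Nat.find hex) with h0 | h0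
    · rw [h0]
      have : S 0 = ∅ := Finset.card_eq_zero.1 (hcard 0)
      rw [this]
      unfold cls
      simp
    · obtain ⟨m, hm⟩ := Nat.exists_eq_succ_of_ne_zero h0.ne'
      have h1 : ¬ (m ≤ b ^ 2 ∧ 3 * q ≤ (cls b (S m)).card) := Nat.find_min hex (by omega)
      have h2 := (Nat.find_spec hex).1
      have h3 : (cls b (S m)).card < 3 * q := by
        by_contra hge
        push Not at hge
        exact h1 ⟨by omega, hge⟩
      rw [hm]
      obtain ⟨x, hx⟩ := hstep m
      have h4 := card_cls_insert b x (S m)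
      rw [← hx] at h4
      have e : m.succ = m + 1 := rfl
      rw [e]
      omega
  have h1 := hlow b (by omega) hco (3 * q) (by omega) (by omega) (S n) hn2.le (hub n hn1)
  rw [hcard] at h1
  have h2 := cls_le_ch (b := b) (by omega) (S n)
  rw [hn2] at h2
  have h3 := hub n hn1
  have h4 := hcon n hn1 (Plane g b (2 * q) n) (by
    rw [hcard]
    exact card_Plane (by omega) (by omega) hco)
  have h5 := tau_Plane (g := g) (b := b) (C := 2 * q) (n := n) U (by omega)
  rw [← hs] at h5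
  unfold tau at h4 h5
  have h6 : fg g U (S n) + 3 * q ≤ 2 * q + s * (n / (2 * q) + 2) := by omega
  have h7 : 2 * q * (n / (2 * q)) ≤ n := Nat.mul_div_le n (2 * q)
  have h8 : 2 * q * (fg g U (S n) + 3 * q) ≤
      2 * q * (2 * q) + 3 * q * (fg g U (S n) + D) + 4 * s * q := by
    calc 2 * q * (fg g U (S n) + 3 * q) ≤ 2 * q * (2 * q + s * (n / (2 * q) + 2)) :=
          Nat.mul_le_mul_left _ h6
      _ = 2 * q * (2 * q) + s * (2 * q * (n / (2 * q))) + 4 * s * q := by ring
      _ ≤ 2 * q * (2 * q) + s * n + 4 * s * q := by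
          have := Nat.mul_le_mul_left s h7
          omega
      _ ≤ 2 * q * (2 * q) + 3 * q * (fg g U (S n) + D) + 4 * s * q := by omega
  have h9 : q * (2 * fg g U (S n) + 6 * q) ≤ q * (4 * q + 3 * (fg g U (S n) + D) + 4 * s) := by
    calc q * (2 * fg g U (S n) + 6 * q) = 2 * q * (fg g U (S n) + 3 * q) := by ring
      _ ≤ _ := h8
      _ = q * (4 * q + 3 * (fg g U (S n) + D) + 4 * s) := by ring
  have h10 := Nat.le_of_mul_le_mul_left h9 (by omega)
  omega

end Pool.Agent.Lib.MP_602b76_co_Large
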