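import Pool.Agent.Lib.MP_602b76_co_Large.Core
import Pool.Agent.Lib.MP_602b76_co_Two.Final

/-!
# One large generator: the statement in `ℤ^1`
-/

namespace Pool.Agent.Lib.MP_602b76_co_Large

open Finset Pool.Agent.Lib.MP_602b76_co_Two Pool.Agent.Lib.MP_602b76_co_Never

/-- A nonempty set of positive steps is `g` times a set generating the integers. -/
theorem exists_reduced (P : Finset ℕ) (hP : P.Nonempty) (hpos : ∀ v ∈ P, 0 < v) :
    ∃ (g : ℕ) (W : Finset ℕ), 0 < g ∧ P = W.image (fun w => w * g) ∧ W.Nonempty ∧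
      (∀ w ∈ W, 0 < w) ∧ (1 : ℤ) ∈ AddSubgroup.closure (steps W) := by
  obtain ⟨a, ha⟩ := Int.subgroup_cyclic (AddSubgroup.closure (steps P))
  have hdvd : ∀ v ∈ P, a.natAbs ∣ v := by
    intro v hv
    have h1 : (v : ℤ) ∈ AddSubgroup.closure (steps P) := AddSubgroup.subset_closure ⟨v, hv, rfl⟩
    rw [ha, AddSubgroup.mem_closure_singleton] at h1
    obtain ⟨n, hn⟩ := h1
    rw [smul_eq_mul] at hn
    have h2 : a ∣ (v : ℤ) := ⟨n, by rw [← hn]; ring⟩
    exact Int.natAbs_dvd_natAbs.2 h2
  have hg : 0 < a.natAbs := by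
    obtain ⟨v, hv⟩ := hP
    exact Nat.pos_of_dvd_of_pos (hdvd v hv) (hpos v hv)
  have hgmem : ((a.natAbs : ℕ) : ℤ) ∈ AddSubgroup.closure (steps P) := by
    rw [ha]
    have h1 : a ∈ AddSubgroup.closure ({a} : Set ℤ) := AddSubgroup.subset_closure rfl
    rcases Int.natAbs_eq a with h | h
    · rw [← h]; exact h1
    · have : ((a.natAbs : ℕ) : ℤ) = -a := by omega
      rw [this]
      exact AddSubgroup.neg_mem _ h1
  refine ⟨a.natAbs, P.image (fun v => v / a.natAbs), hg, ?_, hP.image _, ?_, ?_⟩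
  · rw [Finset.image_image]
    ext v
    rw [mem_image]
    constructor
    · intro hv
      exact ⟨v, hv, Nat.div_mul_cancel (hdvd v hv)⟩
    · rintro ⟨w, hw, hwv⟩
      have : w = v := by
        rw [← hwv]
        exact (Nat.div_mul_cancel (hdvd w hw)).symm
      rwa [← this]
  · intro w hw
    rw [mem_image] at hw
    obtain ⟨v, hv, rfl⟩ := hw
    exact Nat.div_pos (Nat.le_of_dvd (hpos v hv) (hdvd v hv)) hg
  · have h1 : AddSubgroup.closure (steps P) ≤
        (AddSubgroup.closure (steps (P.image (fun v => v / a.natAbs)))).map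
          (AddMonoidHom.mulRight ((a.natAbs : ℕ) : ℤ)) := by
      rw [AddSubgroup.closure_le]
      rintro z ⟨v, hv, rfl⟩
      rw [SetLike.mem_coe, AddSubgroup.mem_map]
      refine ⟨((v / a.natAbs : ℕ) : ℤ),
        AddSubgroup.subset_closure ⟨v / a.natAbs, mem_image_of_mem _ hv, rfl⟩, ?_⟩
      change ((v / a.natAbs : ℕ) : ℤ) * ((a.natAbs : ℕ) : ℤ) = v
      exact_mod_cast Nat.div_mul_cancel (hdvd v hv)
    have h2 := h1 hgmem
    rw [AddSubgroup.mem_map] at h2
    obtain ⟨z, hz, hz'⟩ := h2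
    have hz'' : z * ((a.natAbs : ℕ) : ℤ) = ((a.natAbs : ℕ) : ℤ) := hz'
    have h3 : z = 1 := by
      have h4 : ((a.natAbs : ℕ) : ℤ) ≠ 0 := by exact_mod_cast hg.ne'
      exact mul_right_cancel₀ h4 (by rw [hz'', one_mul])
    rwa [h3] at hz

/-- The edge boundary is twice the number of chains with the absolute values as steps. -/
theorem bd_eq_fV {U : Finset ℤ} (h0 : (0 : ℤ) ∉ U) (S : Finset ℤ) :
    bd U S = 2 * fV (U.image Int.natAbs) S := by
  rw [bd_eq_sum]
  have hU : U ∪ U.image (fun u => -u) =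
      (U.image Int.natAbs).image (fun n : ℕ => (n : ℤ)) ∪
        (U.image Int.natAbs).image (fun n : ℕ => -(n : ℤ)) := by
    ext x
    simp only [mem_union, mem_image, exists_exists_and_eq_and]
    constructor
    · rintro (h | ⟨y, hy, rfl⟩)
      · rcases Int.natAbs_eq x with h' | h'
        · exact Or.inl ⟨x, h, h'.symm⟩
        · exact Or.inr ⟨x, h, h'.symm⟩
      · rcases Int.natAbs_eq y with h' | h'
        · exact Or.inr ⟨y, hy, by omega⟩
        · exact Or.inl ⟨y, hy, by omega⟩
    · rintro (⟨y, hy, rfl⟩ | ⟨y, hy, rfl⟩)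
      · rcases Int.natAbs_eq y with h' | h'
        · rw [← h']; exact Or.inl hy
        · exact Or.inr ⟨y, hy, by omega⟩
      · rcases Int.natAbs_eq y with h' | h'
        · exact Or.inr ⟨y, hy, by omega⟩
        · rw [← h']; exact Or.inl hy
  have hpos : ∀ n ∈ U.image Int.natAbs, 0 < n := by
    intro n hn
    rw [mem_image] at hn
    obtain ⟨y, hy, rfl⟩ := hn
    rw [Int.natAbs_pos]
    rintro rfl
    exact h0 hy
  have hdisj : Disjoint ((U.image Int.natAbs).image (fun n : ℕ => (n : ℤ)))
      ((U.image Int.natAbs).image (fun n : ℕ => -(n : ℤ))) := by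
    rw [Finset.disjoint_left]
    intro x hx hx'
    rw [mem_image] at hx hx'
    obtain ⟨n, hn, rfl⟩ := hx
    obtain ⟨m, hm, hm'⟩ := hx'
    have := hpos n hn
    omega
  rw [hU, Finset.sum_union hdisj]
  generalize U.image Int.natAbs = P
  have e1 : ∑ x ∈ P.image (fun n : ℕ => (n : ℤ)), ch x S = fV P S :=
    Finset.sum_image (fun x _ y _ h => Nat.cast_injective h)
  have e2 : ∑ x ∈ P.image (fun n : ℕ => -(n : ℤ)), ch x S = fV P S := by
    rw [Finset.sum_image (fun x _ y _ h => Nat.cast_injective (neg_injective h))]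
    exact Finset.sum_congr rfl (fun n _ => ch_neg _ _)
  rw [e1, e2]
  ring

/-- **One large generator.** -/
theorem large_generator (V : Finset (Fin 1 → ℤ)) (h0 : (0 : Fin 1 → ℤ) ∉ V) :
    ∃ B : ℕ, ∀ b : Fin 1 → ℤ, (B : ℤ) ≤ |b 0| →
      AddSubgroup.closure (insert b V : Set (Fin 1 → ℤ)) = ⊤ →
        ∀ e : ℕ ≃ (Fin 1 → ℤ), ∃ n : ℕ, (n : ℤ) ≤ (b 0) ^ 2 ∧
          ¬ EdgeOptimal (insert b V) ((range n).image e) := by
  classical
  by_cases hV : V.Nonempty
  · obtain ⟨P, hP⟩ : ∃ P, P = (V.map phi.toEmbedding).image Int.natAbs := ⟨_, rfl⟩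
    have h0' : (0 : ℤ) ∉ V.map phi.toEmbedding := by
      intro h
      rw [mem_map] at h
      obtain ⟨x, hx, hx0⟩ := h
      apply h0
      have : x = 0 := by
        funext i
        rw [Fin.fin_one_eq_zero i]
        exact hx0
      rwa [← this]
    have hPpos : ∀ v ∈ P, 0 < v := by
      intro v hv
      rw [hP, mem_image] at hv
      obtain ⟨y, hy, rfl⟩ := hv
      rw [Int.natAbs_pos]
      rintro rfl
      exact h0' hy
    have hPne : P.Nonempty := by
      rw [hP]
      exact (hV.map).image _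
    obtain ⟨g, W, hg, hPW, hW, hWpos, hgen⟩ := exists_reduced P hPne hPpos
    obtain ⟨B, hB⟩ := core g W hW hWpos hgen
    refine ⟨B + (∑ v ∈ P, v) + 1, fun b hb hclos e => ?_⟩
    obtain ⟨β, hβ⟩ : ∃ β : ℕ, β = (b 0).natAbs := ⟨_, rfl⟩
    have hβB : B + (∑ v ∈ P, v) + 1 ≤ β := by
      rw [Int.abs_eq_natAbs, ← hβ] at hb
      exact_mod_cast hb
    have hβP : β ∉ P := by
      intro h
      have := Finset.single_le_sum (f := fun v : ℕ => v) (fun _ _ => Nat.zero_le _) h
      omega
    -- coprimality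
    have hco : Nat.Coprime g β := by
      have hle : AddSubgroup.closure (insert b V : Set (Fin 1 → ℤ)) ≤
          (AddSubgroup.zmultiples ((Nat.gcd g β : ℕ) : ℤ)).comap
            (Pi.evalAddMonoidHom (fun _ : Fin 1 => ℤ) 0) := by
        rw [AddSubgroup.closure_le]
        rintro x hx
        rw [SetLike.mem_coe, AddSubgroup.mem_comap, Int.mem_zmultiples_iff]
        rw [Set.mem_insert_iff] at hx
        rcases hx with rfl | hx
        · change ((Nat.gcd g β : ℕ) : ℤ) ∣ x 0
          rw [← Int.dvd_natAbs, ← hβ]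
          exact_mod_cast Nat.gcd_dvd_right g β
        · change ((Nat.gcd g β : ℕ) : ℤ) ∣ x 0
          have h1 : (x 0).natAbs ∈ P := by
            rw [hP, mem_image]
            refine ⟨x 0, ?_, rfl⟩
            rw [mem_map]
            exact ⟨x, hx, rfl⟩
          rw [hPW, mem_image] at h1
          obtain ⟨w, _, hw⟩ := h1
          rw [← Int.dvd_natAbs, ← hw]
          exact_mod_cast Dvd.dvd.mul_left (Nat.gcd_dvd_left g β) w
      rw [hclos] at hle
      have h1 := hle (AddSubgroup.mem_top (fun _ => (1 : ℤ)))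
      rw [AddSubgroup.mem_comap, Int.mem_zmultiples_iff] at h1
      have h2 : ((Nat.gcd g β : ℕ) : ℤ) ∣ 1 := h1
      exact Nat.dvd_one.1 (by exact_mod_cast h2)
    -- the enumeration of the integers
    obtain ⟨n, hn1, hn2⟩ := hB β (by omega) hco (fun n => (range n).image (e.trans phi))
      (fun n => by
        rw [card_image_of_injective _ (e.trans phi).injective, card_range])
      (fun n => ⟨(e.trans phi) n, by rw [Finset.range_add_one, image_insert]⟩)
    refine ⟨n, ?_, fun hopt => hn2 ?_⟩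
    · have h1 : ((β ^ 2 : ℕ) : ℤ) = (b 0) ^ 2 := by
        rw [hβ]
        push_cast
        rw [sq_abs]
      rw [← h1]
      exact_mod_cast hn1
    · rw [optimal_iff_bd, map_image_range] at hopt
      have hins : ((insert b V : Finset (Fin 1 → ℤ)).map phi.toEmbedding) =
          insert (b 0) (V.map phi.toEmbedding) := by
        rw [Finset.map_insert]
        rfl
      have hb0 : (0 : ℤ) ∉ insert (b 0) (V.map phi.toEmbedding) := by
        rw [mem_insert, not_or]
        refine ⟨?_, h0'⟩
        intro h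
        have : β = 0 := by rw [hβ, ← h]; rfl
        omega
      have hbd : ∀ T : Finset ℤ, bd ((insert b V : Finset (Fin 1 → ℤ)).map phi.toEmbedding) T =
          2 * tau g β W T := by
        intro T
        rw [hins, bd_eq_fV hb0, image_insert, ← hP, ← hβ]
        unfold fV tau fg
        rw [Finset.sum_insert hβP, hPW, Finset.sum_image]
        · push_cast
          ring
        · intro x _ y _ hxy
          exact Nat.eq_of_mul_eq_mul_right hg hxy
      intro T hT
      have := hopt T hT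
      rw [hbd, hbd] at this
      omega
  · rw [Finset.not_nonempty_iff_eq_empty] at hV
    refine ⟨2, fun b hb hclos e => ?_⟩
    exfalso
    rw [hV, coe_empty, ← Set.singleton_def] at hclos
    have h1 : (fun _ => 1 : Fin 1 → ℤ) ∈ AddSubgroup.closure ({b} : Set (Fin 1 → ℤ)) := by
      rw [hclos]; exact AddSubgroup.mem_top _
    rw [AddSubgroup.mem_closure_singleton] at h1
    obtain ⟨n, hn⟩ := h1
    have h2 := congrFun hn 0
    simp only [Pi.smul_apply, smul_eq_mul] at h2
    have h3 : b 0 ∣ 1 := ⟨n, by linarith⟩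
    have h4 := Int.isUnit_iff.1 (isUnit_of_dvd_one h3)
    rcases h4 with h4 | h4 <;> rw [h4] at hb <;> norm_num at hb

end Pool.Agent.Lib.MP_602b76_co_Large
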