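import Pool.Agent.Lib.MP_602b76_co_Two.Shapes

/-!
# One large generator: chains along paths and the one-dimensional bound

`V` is a finite set of positive steps and `fV V S` the number of all chains of `S` with steps
from `V`.
-/

namespace Pool.Agent.Lib.MP_602b76_co_Large

open Finset Pool.Agent.Lib.MP_602b76_co_Two

/-- The number of chains with steps in `V`. -/
def fV (V : Finset ℕ) (S : Finset ℤ) : ℕ := ∑ v ∈ V, ch (v : ℤ) S

theorem ch_zero (S : Finset ℤ) : ch 0 S = 0 := by
  unfold ch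
  rw [Finset.card_eq_zero, Finset.filter_eq_empty_iff]
  intro x hx
  simp [hx]

theorem ch_add_le (s t : ℤ) (S : Finset ℤ) : ch (s + t) S ≤ ch s S + ch t S := by
  unfold ch
  have h1 : S.filter (fun x => x + (s + t) ∉ S) ⊆
      S.filter (fun x => x + s ∉ S) ∪
        (S.filter (fun x => x + t ∉ S)).image (fun x => x - s) := by
    intro x hx
    rw [mem_filter] at hx
    rw [mem_union, mem_filter, mem_image]
    by_cases h : x + s ∈ S
    · right
      refine ⟨x + s, ?_, by ring⟩
      rw [mem_filter]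
      refine ⟨h, ?_⟩
      have : x + s + t = x + (s + t) := by ring
      rw [this]
      exact hx.2
    · left
      exact ⟨hx.1, h⟩
  calc (S.filter (fun x => x + (s + t) ∉ S)).card
      ≤ _ := card_le_card h1
    _ ≤ _ := card_union_le _ _
    _ ≤ (S.filter (fun x => x + s ∉ S)).card + (S.filter (fun x => x + t ∉ S)).card :=
        Nat.add_le_add_left card_image_le _

/-- The steps of `V` as integers. -/
def steps (V : Finset ℕ) : Set ℤ := {z | ∃ v ∈ V, z = (v : ℤ)}

/-- Along a path with steps in `V`. -/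
theorem path_bound (V : Finset ℕ) {s : ℤ} (hs : s ∈ AddSubgroup.closure (steps V)) :
    ∃ L : ℕ, ∀ S : Finset ℤ, ch s S ≤ L * fV V S := by
  induction hs using AddSubgroup.closure_induction with
  | mem z hz =>
    obtain ⟨v, hv, rfl⟩ := hz
    refine ⟨1, fun S => ?_⟩
    rw [one_mul]
    exact Finset.single_le_sum (f := fun v : ℕ => ch (v : ℤ) S) (fun _ _ => Nat.zero_le _) hv
  | zero =>
    refine ⟨0, fun S => ?_⟩
    rw [ch_zero]
    exact Nat.zero_le _
  | add s t _ _ hs ht =>
    obtain ⟨L, hL⟩ := hs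
    obtain ⟨M, hM⟩ := ht
    refine ⟨L + M, fun S => ?_⟩
    rw [add_mul]
    exact le_trans (ch_add_le s t S) (add_le_add (hL S) (hM S))
  | neg s _ hs =>
    obtain ⟨L, hL⟩ := hs
    refine ⟨L, fun S => ?_⟩
    rw [ch_neg]
    exact hL S

/-- A common bound for the steps `0, g, 2 g, ..., (K - 1) g`. -/
theorem paths_bound (V : Finset ℕ) {g : ℤ} (hg : g ∈ AddSubgroup.closure (steps V)) (K : ℕ) :
    ∃ L : ℕ, ∀ S : Finset ℤ, ∑ t ∈ range K, ch ((t : ℤ) * g) S ≤ L * fV V S := by
  have h : ∀ t : ℕ, ∃ L : ℕ, ∀ S : Finset ℤ, ch ((t : ℤ) * g) S ≤ L * fV V S := by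
    intro t
    apply path_bound
    have := AddSubgroup.zsmul_mem _ hg (t : ℤ)
    rwa [smul_eq_mul] at this
  choose L hL using h
  refine ⟨∑ t ∈ range K, L t, fun S => ?_⟩
  rw [Finset.sum_mul]
  exact Finset.sum_le_sum (fun t _ => hL t S)

/-- Every element of `S` but few starts an interval of length `K` in `S`. -/
theorem exists_run {S : Finset ℤ} {K : ℕ} (h : ∑ t ∈ range K, ch ((t : ℤ) * 1) S < S.card) :
    ∃ x ∈ S, ∀ t : ℕ, t < K → x + t ∈ S := by
  by_contra hcon
  push Not at hcon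
  have hsub : S ⊆ (range K).biUnion (fun t : ℕ => S.filter (fun x => x + (t : ℤ) * 1 ∉ S)) := by
    intro x hx
    obtain ⟨t, ht, hxt⟩ := hcon x hx
    rw [mem_biUnion]
    refine ⟨t, mem_range.2 ht, ?_⟩
    rw [mem_filter, mul_one]
    exact ⟨hx, hxt⟩
  have h1 := card_le_card hsub
  have h2 := le_trans h1 card_biUnion_le
  unfold ch at h
  omega

/-- **One-dimensional bound.** If the steps generate the integers, a large set has at least
`∑ v` chains. -/
theorem one_dim (V : Finset ℕ) (hV : ∀ v ∈ V, 0 < v)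
    (hgen : (1 : ℤ) ∈ AddSubgroup.closure (steps V)) :
    ∃ N : ℕ, ∀ S : Finset ℤ, N ≤ S.card → ∑ v ∈ V, v ≤ fV V S := by
  obtain ⟨L, hL⟩ := paths_bound V hgen (∑ v ∈ V, v)
  refine ⟨L * (∑ v ∈ V, v) + 1, fun S hS => ?_⟩
  by_contra hlt
  push Not at hlt
  have h1 := hL S
  have h2 : L * fV V S ≤ L * (∑ v ∈ V, v) := Nat.mul_le_mul_left _ hlt.le
  obtain ⟨x, _, hx⟩ := exists_run (S := S) (K := ∑ v ∈ V, v) (by omega)
  have h3 : ∑ v ∈ V, v ≤ fV V S := by
    unfold fV
    apply Finset.sum_le_sum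
    intro v hv
    have hvpos := hV v hv
    have hvle : v ≤ ∑ w ∈ V, w := Finset.single_le_sum (f := fun w : ℕ => w)
      (fun _ _ => Nat.zero_le _) hv
    apply le_ch_of_all hvpos
    intro y hmiss
    -- the representative of `y` in `[x, x + v)`
    have hv' : (0 : ℤ) < v := by exact_mod_cast hvpos
    obtain ⟨t, ht⟩ : ∃ t : ℕ, (t : ℤ) = (y - x) % (v : ℤ) :=
      ⟨((y - x) % (v : ℤ)).toNat, Int.toNat_of_nonneg (Int.emod_nonneg _ hv'.ne')⟩
    have htv : (t : ℤ) < v := by rw [ht]; exact Int.emod_lt_of_pos _ hv'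
    apply hmiss (x + t) (hx t (by omega))
    rw [ht]
    have := Int.emod_add_mul_ediv (y - x) (v : ℤ)
    refine ⟨-((y - x) / (v : ℤ)), ?_⟩
    linear_combination this
  omega

end Pool.Agent.Lib.MP_602b76_co_Large
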