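import Pool.Agent.Lib.MP_602b76_co_Large.Paths

/-!
# One large generator: the rows of a set which misses a class modulo `b`

The steps are `w * g` with `w ∈ U`, where the elements of `U` generate the integers, and `b`.
-/

namespace Pool.Agent.Lib.MP_602b76_co_Large

open Finset Pool.Agent.Lib.MP_602b76_co_Two

/-- The number of chains with the steps `w * g`, `w ∈ U`. -/
def fg (g : ℕ) (U : Finset ℕ) (S : Finset ℤ) : ℕ := ∑ w ∈ U, ch ((w : ℤ) * g) S

/-- The classes modulo `b` which meet `S`. -/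
def cls (b : ℕ) (S : Finset ℤ) : Finset ℤ := S.image (fun x => x % (b : ℤ))

theorem cls_le_ch {b : ℕ} (hb : 0 < b) (S : Finset ℤ) : (cls b S).card ≤ ch (b : ℤ) S :=
  image_le_ch (b := (b : ℤ)) (by exact_mod_cast hb) S (fun x : ℤ => x % (b : ℤ))
    (by intro x _ _; simp)

variable {A c : ℤ} {g b : ℕ}

/-- The row `j` of `S`. -/
def Row (A c : ℤ) (g b : ℕ) (S : Finset ℤ) (j : ℤ) : Finset ℤ :=
  (S.filter (fun x => jx A c g b x = j)).image (ix A c b)

theorem ix_inj_row (hA : Inv A g b) {S : Finset ℤ} {j : ℤ} :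
    Set.InjOn (ix A c b) (S.filter (fun x => jx A c g b x = j) : Finset ℤ) := by
  intro x hx y hy hxy
  rw [mem_coe, mem_filter] at hx hy
  have h1 := repr_eq (c := c) hA x
  have h2 := repr_eq (c := c) hA y
  rw [hx.2] at h1
  rw [hy.2, ← hxy] at h2
  linarith

theorem ix_congr {x y : ℤ} (h : x % (b : ℤ) = y % (b : ℤ)) : ix A c b x = ix A c b y := by
  unfold ix
  have h1 : (b : ℤ) ∣ x - y := Int.dvd_of_emod_eq_zero (Int.emod_eq_emod_iff_emod_sub_eq_zero.1 h)
  apply Int.emod_eq_emod_iff_emod_sub_eq_zero.2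
  apply Int.emod_eq_zero_of_dvd
  have e : (x - c) * A - (y - c) * A = (x - y) * A := by ring
  rw [e]
  exact Dvd.dvd.mul_right h1 _

theorem card_Row (hA : Inv A g b) (S : Finset ℤ) (j : ℤ) :
    (Row A c g b S j).card = (S.filter (fun x => jx A c g b x = j)).card := by
  unfold Row
  exact card_image_of_injOn (ix_inj_row hA)

theorem card_Row_le (hA : Inv A g b) (S : Finset ℤ) (j : ℤ) :
    (Row A c g b S j).card ≤ (cls b S).card := by
  rw [card_Row hA]
  unfold cls
  have hinj : Set.InjOn (fun x : ℤ => x % (b : ℤ))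
      (S.filter (fun x => jx A c g b x = j) : Finset ℤ) := by
    intro x hx y hy hxy
    exact ix_inj_row (c := c) hA hx hy (ix_congr hxy)
  rw [← card_image_of_injOn hinj]
  exact card_le_card (image_subset_image (filter_subset _ _))

theorem sum_card_Row (hA : Inv A g b) (S : Finset ℤ) :
    ∑ j ∈ S.image (jx A c g b), (Row A c g b S j).card = S.card := by
  rw [Finset.card_eq_sum_card_image (jx A c g b) S]
  exact Finset.sum_congr rfl (fun j _ => card_Row hA S j)

/-- Inside a set missing the class of `c`, a step `w * g` which does not wrap around stays in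
the row. -/
theorem step_w (hb : 0 < b) (hA : Inv A g b) {x : ℤ} {w : ℕ} (h : ix A c b x + w < b) :
    ix A c b (x + w * g) = ix A c b x + w ∧ jx A c g b (x + w * g) = jx A c g b x := by
  have h0 := ix_nonneg (A := A) (c := c) hb x
  have e : x + w * g = c + (ix A c b x + w) * g + jx A c g b x * b := by
    have := repr_eq (c := c) hA x
    linear_combination this
  constructor
  · conv_lhs => rw [e]
    exact ix_repr hA (by omega) h
  · conv_lhs => rw [e]
    exact jx_repr hb hA (by omega) h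

theorem ch_Row_le (hb : 0 < b) (hA : Inv A g b) (S : Finset ℤ) (j : ℤ) (w : ℕ) :
    ch (w : ℤ) (Row A c g b S j) ≤
      ((S.filter (fun x => x + (w : ℤ) * g ∉ S ∨ (b : ℤ) ≤ ix A c b x + w)).filter
        (fun x => jx A c g b x = j)).card := by
  unfold ch
  have hsub : (Row A c g b S j).filter (fun i => i + (w : ℤ) ∉ Row A c g b S j) ⊆
      ((S.filter (fun x => x + (w : ℤ) * g ∉ S ∨ (b : ℤ) ≤ ix A c b x + w)).filter
        (fun x => jx A c g b x = j)).image (ix A c b) := by
    intro i hi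
    rw [mem_filter] at hi
    obtain ⟨hi1, hi2⟩ := hi
    unfold Row at hi1
    rw [mem_image] at hi1
    obtain ⟨x, hx, rfl⟩ := hi1
    rw [mem_filter] at hx
    rw [mem_image]
    refine ⟨x, ?_, rfl⟩
    rw [mem_filter, mem_filter]
    refine ⟨⟨hx.1, ?_⟩, hx.2⟩
    by_contra hcon
    push Not at hcon
    obtain ⟨h1, h2⟩ := hcon
    apply hi2
    obtain ⟨h3, h4⟩ := step_w hb hA h2
    unfold Row
    rw [mem_image]
    refine ⟨x + w * g, ?_, h3⟩
    rw [mem_filter]
    exact ⟨h1, h4.trans hx.2⟩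
  exact le_trans (card_le_card hsub) card_image_le

theorem sum_ch_Row_le (hb : 0 < b) (hA : Inv A g b) (S : Finset ℤ) (w : ℕ) :
    ∑ j ∈ S.image (jx A c g b), ch (w : ℤ) (Row A c g b S j) ≤
      ch ((w : ℤ) * g) S + (S.filter (fun x => (b : ℤ) ≤ ix A c b x + w)).card := by
  refine le_trans (Finset.sum_le_sum (fun j _ => ch_Row_le hb hA S j w)) ?_
  rw [Finset.sum_card_fiberwise_eq_card_filter]
  refine le_trans (card_filter_le _ _) ?_
  unfold ch
  refine le_trans (card_le_card ?_) (card_union_le _ _)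
  intro x hx
  rw [mem_filter] at hx
  rw [mem_union, mem_filter, mem_filter]
  rcases hx.2 with h | h
  · exact Or.inl ⟨hx.1, h⟩
  · exact Or.inr ⟨hx.1, h⟩

theorem one_le_ch' {w : ℕ} (hw : 0 < w) {S : Finset ℤ} (h : S.Nonempty) :
    1 ≤ ch (w : ℤ) S := by
  obtain ⟨z, hz, hmax⟩ := Finset.exists_max_image S (fun x => x) h
  have : z ∈ S.filter (fun x => x + (w : ℤ) ∉ S) := by
    rw [mem_filter]
    refine ⟨hz, fun h' => ?_⟩
    have := hmax _ h'
    omega
  exact Finset.card_pos.2 ⟨z, this⟩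

/-- **Rows bound.** -/
theorem rows_bound (hb : 0 < b) (hA : Inv A g b) {U : Finset ℕ} (hU : U.Nonempty)
    (hpos : ∀ w ∈ U, 0 < w) {N : ℕ}
    (hN : ∀ T : Finset ℤ, N ≤ T.card → ∑ w ∈ U, w ≤ fV U T) (S : Finset ℤ) {K : ℕ}
    (hK : (cls b S).card ≤ K) (hK' : (∑ w ∈ U, w) * N ≤ K) :
    (∑ w ∈ U, w) * S.card ≤
      K * (fg g U S + ∑ w ∈ U, (S.filter (fun x => (b : ℤ) ≤ ix A c b x + w)).card) := by
  have hrow : ∀ j, (∑ w ∈ U, w) * (Row A c g b S j).card ≤ K * fV U (Row A c g b S j) := by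
    intro j
    have h1 := card_Row_le (c := c) hA S j
    by_cases h2 : N ≤ (Row A c g b S j).card
    · have h3 := hN _ h2
      calc (∑ w ∈ U, w) * (Row A c g b S j).card ≤ fV U (Row A c g b S j) * K :=
            Nat.mul_le_mul h3 (h1.trans hK)
        _ = K * fV U (Row A c g b S j) := mul_comm _ _
    · push Not at h2
      by_cases h3 : (Row A c g b S j).Nonempty
      · obtain ⟨w, hw⟩ := hU
        have h4 : 1 ≤ fV U (Row A c g b S j) := by
          unfold fV
          exact le_trans (one_le_ch' (hpos w hw) h3)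
            (Finset.single_le_sum (f := fun v : ℕ => ch (v : ℤ) (Row A c g b S j))
              (fun _ _ => Nat.zero_le _) hw)
        calc (∑ w ∈ U, w) * (Row A c g b S j).card ≤ (∑ w ∈ U, w) * N :=
              Nat.mul_le_mul_left _ h2.le
          _ ≤ K := hK'
          _ = K * 1 := (mul_one _).symm
          _ ≤ K * fV U (Row A c g b S j) := Nat.mul_le_mul_left _ h4
      · rw [Finset.not_nonempty_iff_eq_empty] at h3
        rw [h3, card_empty, mul_zero]
        exact Nat.zero_le _
  have h1 : (∑ w ∈ U, w) * S.card =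
      ∑ j ∈ S.image (jx A c g b), (∑ w ∈ U, w) * (Row A c g b S j).card := by
    rw [← Finset.mul_sum, sum_card_Row hA]
  rw [h1]
  refine le_trans (Finset.sum_le_sum (fun j _ => hrow j)) ?_
  rw [← Finset.mul_sum]
  apply Nat.mul_le_mul_left
  unfold fV fg
  rw [Finset.sum_comm, ← Finset.sum_add_distrib]
  exact Finset.sum_le_sum (fun w _ => sum_ch_Row_le hb hA S w)

end Pool.Agent.Lib.MP_602b76_co_Large
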