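import Pool.Agent.Lib.MP_602b76_co_Large.Rows

/-!
# One large generator: a good missing class

Some missing class `z` has few points of `S` in the `W` classes before it.
-/

namespace Pool.Agent.Lib.MP_602b76_co_Large

open Finset Pool.Agent.Lib.MP_602b76_co_Two

variable {A : ℤ} {g b : ℕ}

/-- The representatives of the missing classes. -/
noncomputable def missing (b : ℕ) (S : Finset ℤ) : Finset ℤ := (Ico (0 : ℤ) b) \ cls b S

theorem cls_subset (hb : 0 < b) (S : Finset ℤ) : cls b S ⊆ Ico (0 : ℤ) b := by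
  intro z hz
  unfold cls at hz
  rw [mem_image] at hz
  obtain ⟨x, _, rfl⟩ := hz
  rw [mem_Ico]
  have hb' : (0 : ℤ) < b := by exact_mod_cast hb
  exact ⟨Int.emod_nonneg _ hb'.ne', Int.emod_lt_of_pos _ hb'⟩

theorem card_cls_le (hb : 0 < b) (S : Finset ℤ) : (cls b S).card ≤ b := by
  have := card_le_card (cls_subset hb S)
  rwa [Int.card_Ico, sub_zero, Int.toNat_natCast] at this

theorem card_missing (hb : 0 < b) (S : Finset ℤ) :
    (missing b S).card + (cls b S).card = b := by
  unfold missing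
  rw [Finset.card_sdiff_add_card_eq_card (cls_subset hb S), Int.card_Ico, sub_zero,
    Int.toNat_natCast]

theorem not_mem_of_missing {S : Finset ℤ} {z x : ℤ} (hz : z ∈ missing b S)
    (hx : x % (b : ℤ) = z) : x ∉ S := by
  intro h
  unfold missing at hz
  rw [mem_sdiff] at hz
  apply hz.2
  unfold cls
  rw [mem_image]
  exact ⟨x, h, hx⟩

theorem window_z (hb : 0 < b) (hA : Inv A g b) (S : Finset ℤ) (W : ℕ) {z : ℤ}
    (hz : z ∈ missing b S) :
    (S.filter (fun x => (b : ℤ) ≤ ix A z b x + W)).card ≤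
      ∑ t ∈ range (W + 1), ((S.filter (fun x => x + (t : ℤ) * g ∉ S)).filter
        (fun x => (x + (t : ℤ) * g) % (b : ℤ) = z)).card := by
  refine le_trans (card_le_card ?_) card_biUnion_le
  intro x hx
  rw [mem_filter] at hx
  obtain ⟨hx1, hx2⟩ := hx
  have h0 := ix_nonneg (A := A) (c := z) hb x
  have h1 := ix_lt (A := A) (c := z) hb x
  obtain ⟨t, ht⟩ := Int.eq_ofNat_of_zero_le (show (0 : ℤ) ≤ b - ix A z b x by omega)
  have hzr : 0 ≤ z ∧ z < b := by
    unfold missing at hz
    rw [mem_sdiff, mem_Ico] at hz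
    exact hz.1
  have hmod : (x + (t : ℤ) * g) % (b : ℤ) = z := by
    have hrep := repr_eq (c := z) hA x
    have e : x + (t : ℤ) * g = z + (b : ℤ) * (g + jx A z g b x) := by
      rw [← ht]
      linear_combination hrep
    rw [e, Int.add_mul_emod_self_left]
    exact Int.emod_eq_of_lt hzr.1 hzr.2
  rw [mem_biUnion]
  refine ⟨t, mem_range.2 (by omega), ?_⟩
  rw [mem_filter, mem_filter]
  exact ⟨⟨hx1, not_mem_of_missing hz hmod⟩, hmod⟩

theorem window_sum (hb : 0 < b) (hA : Inv A g b) (S : Finset ℤ) (W : ℕ) :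
    ∑ z ∈ missing b S, (S.filter (fun x => (b : ℤ) ≤ ix A z b x + W)).card ≤
      ∑ t ∈ range (W + 1), ch ((t : ℤ) * g) S := by
  refine le_trans (Finset.sum_le_sum (fun z hz => window_z hb hA S W hz)) ?_
  rw [Finset.sum_comm]
  apply Finset.sum_le_sum
  intro t _
  rw [Finset.sum_card_fiberwise_eq_card_filter]
  exact card_filter_le _ _

/-- **A good missing class.** -/
theorem exists_window (hb : 0 < b) (hA : Inv A g b) (S : Finset ℤ) (W E : ℕ)
    (hne : (missing b S).Nonempty)
    (hE : ∑ t ∈ range (W + 1), ch ((t : ℤ) * g) S ≤ (missing b S).card * E) :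
    ∃ z ∈ missing b S, (S.filter (fun x => (b : ℤ) ≤ ix A z b x + W)).card ≤ E := by
  by_contra hcon
  push Not at hcon
  have h1 := window_sum hb hA S W
  have h2 : (missing b S).card * E <
      ∑ z ∈ missing b S, (S.filter (fun x => (b : ℤ) ≤ ix A z b x + W)).card := by
    rw [← smul_eq_mul, ← Finset.sum_const]
    exact Finset.sum_lt_sum_of_nonempty hne hcon
  omega

/-- **Main lower bound.** Let `U` be a nonempty finite set of positive integers generating the
integers. There are constants `D` and `M` such that a set `S` with at most `M ≤ K < b` classes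
modulo `b` and at most `∑ w g + b` chains satisfies `∑ w * |S| ≤ K * (chains + D)`. -/
theorem lower (g : ℕ) (U : Finset ℕ) (hU : U.Nonempty) (hpos : ∀ w ∈ U, 0 < w)
    (hgen : (1 : ℤ) ∈ AddSubgroup.closure (steps U)) :
    ∃ D M : ℕ, ∀ b : ℕ, 0 < b → Nat.Coprime g b → ∀ K : ℕ, M ≤ K → K < b → ∀ S : Finset ℤ,
      (cls b S).card ≤ K → fg g U S + ch (b : ℤ) S ≤ (∑ w ∈ U, w) * g + b →
        (∑ w ∈ U, w) * S.card ≤ K * (fg g U S + D) := by
  obtain ⟨N, hN⟩ := one_dim U hpos hgen
  -- the steps `t * g` as sums of the steps `w * g`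
  obtain ⟨L, hL⟩ : ∃ L : ℕ, ∀ S : Finset ℤ,
      ∑ t ∈ range ((∑ w ∈ U, w) + 1), ch ((t : ℤ) * g) S ≤ L * fg g U S := by
    have hmem : (g : ℤ) ∈ AddSubgroup.closure (steps (U.image (fun w => w * g))) := by
      have h1 : (AddSubgroup.closure (steps U)) ≤
          (AddSubgroup.closure (steps (U.image (fun w => w * g)))).comap
            (AddMonoidHom.mulRight (g : ℤ)) := by
        rw [AddSubgroup.closure_le]
        rintro z ⟨w, hw, rfl⟩
        rw [SetLike.mem_coe, AddSubgroup.mem_comap]
        apply AddSubgroup.subset_closure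
        refine ⟨w * g, mem_image_of_mem _ hw, ?_⟩
        simp
      have h2 := h1 hgen
      rw [AddSubgroup.mem_comap] at h2
      simpa using h2
    obtain ⟨L, hL⟩ := paths_bound _ hmem ((∑ w ∈ U, w) + 1)
    refine ⟨L, fun S => le_trans (hL S) ?_⟩
    apply Nat.mul_le_mul_left
    unfold fV fg
    refine le_trans (Finset.sum_image_le_of_nonneg ?_) ?_
    · intro _ _
      exact Nat.zero_le _
    · apply Finset.sum_le_sum
      intro w _
      push_cast
      exact le_rfl
  refine ⟨U.card * (L * ((∑ w ∈ U, w) * g + 1)), (∑ w ∈ U, w) * N, ?_⟩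
  intro b hb hco K hMK hKb S hcls hS
  obtain ⟨A, hA⟩ := exists_inv hco
  have hmc := card_missing hb S
  have hne : (missing b S).Nonempty := by
    rw [← Finset.card_pos]
    omega
  have hchb := cls_le_ch hb S
  have hF : fg g U S ≤ (∑ w ∈ U, w) * g + (missing b S).card := by omega
  obtain ⟨z, _, hz⟩ := exists_window hb hA S (∑ w ∈ U, w) (L * ((∑ w ∈ U, w) * g + 1)) hne (by
    refine le_trans (hL S) ?_
    have h1 : 1 ≤ (missing b S).card := hne.card_pos
    calc L * fg g U S ≤ L * ((∑ w ∈ U, w) * g + (missing b S).card) :=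
          Nat.mul_le_mul_left _ hF
      _ ≤ L * ((missing b S).card * ((∑ w ∈ U, w) * g + 1)) := by
          apply Nat.mul_le_mul_left
          have h2 : (∑ w ∈ U, w) * g ≤ (missing b S).card * ((∑ w ∈ U, w) * g) :=
            Nat.le_mul_of_pos_left _ h1
          rw [mul_add, mul_one]
          omega
      _ = (missing b S).card * (L * ((∑ w ∈ U, w) * g + 1)) := by ring)
  have h1 := rows_bound (c := z) hb hA hU hpos hN S hcls hMK
  refine le_trans h1 ?_
  apply Nat.mul_le_mul_left
  apply Nat.add_le_add_left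
  rw [← smul_eq_mul, ← Finset.sum_const]
  apply Finset.sum_le_sum
  intro w hw
  refine le_trans (card_le_card ?_) hz
  intro x hx
  rw [mem_filter] at hx ⊢
  refine ⟨hx.1, ?_⟩
  have h2 : w ≤ ∑ w ∈ U, w := Finset.single_le_sum (f := fun w : ℕ => w)
    (fun _ _ => Nat.zero_le _) hw
  omega

end Pool.Agent.Lib.MP_602b76_co_Large
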